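import Pool.Agent.TH220.HG.Sub

/-! Lattices whose Voronoi cell is cut out by few pairs of half spaces. -/

set_option autoImplicit false

namespace Pool.Agent.Q197.VR

open Matrix Finset Pool.Agent.H160R3.Herm Pool.Agent.TH220.HG

/-- the point `A w` of the lattice `A ℤⁿ` -/
noncomputable def pt {n : ℕ} (A : Matrix (Fin n) (Fin n) ℝ) (w : Fin n → ℤ) : Fin n → ℝ :=
  A.mulVec (fun j => (w j : ℝ))

/-- `z` is at least as close to the origin as to the point `A w` -/
def Near {n : ℕ} (A : Matrix (Fin n) (Fin n) ℝ) (z : Fin n → ℝ) (w : Fin n → ℤ) : Prop :=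
  ∑ i, z i ^ 2 ≤ ∑ i, (z i - pt A w i) ^ 2

/-- the Voronoi cell of the lattice `A ℤⁿ` is cut out by the `2 F` half spaces belonging to at most
`F` pairs `± A w` of its vectors -/
def FewPairs {n : ℕ} (A : Matrix (Fin n) (Fin n) ℝ) (F : ℕ) : Prop :=
  ∃ S : Finset (Fin n → ℤ), S.card ≤ F ∧ ∀ z : Fin n → ℝ,
    (∀ w ∈ S, Near A z w ∧ Near A z (-w)) → ∀ w : Fin n → ℤ, Near A z w

/-- the Hermite constant restricted to the lattices whose Voronoi cells have at most `2 F` facets -/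
noncomputable def restricted (n F : ℕ) : ℝ :=
  sSup {g : ℝ | ∃ A : Matrix (Fin n) (Fin n) ℝ, A.det ≠ 0 ∧ FewPairs A F ∧ g = gam A}

/-- the inner product of `z` and `A w` -/
noncomputable def inn {n : ℕ} (A : Matrix (Fin n) (Fin n) ℝ) (z : Fin n → ℝ) (w : Fin n → ℤ) : ℝ :=
  ∑ i, z i * pt A w i

theorem nsq_eq {n : ℕ} (A : Matrix (Fin n) (Fin n) ℝ) (w : Fin n → ℤ) :
    nsq A w = ∑ i, pt A w i ^ 2 := rfl

theorem near_iff {n : ℕ} {A : Matrix (Fin n) (Fin n) ℝ} {z : Fin n → ℝ} {w : Fin n → ℤ} :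
    Near A z w ↔ 2 * inn A z w ≤ nsq A w := by
  have h : ∑ i, (z i - pt A w i) ^ 2 = ∑ i, z i ^ 2 - 2 * inn A z w + nsq A w := by
    rw [nsq_eq, inn, Finset.mul_sum, ← Finset.sum_sub_distrib, ← Finset.sum_add_distrib]
    exact Finset.sum_congr rfl fun i _ => by ring
  rw [Near, h]
  constructor <;> intro h <;> linarith

theorem pt_neg {n : ℕ} (A : Matrix (Fin n) (Fin n) ℝ) (w : Fin n → ℤ) : pt A (-w) = -pt A w := by
  unfold pt
  have : (fun j => ((-w) j : ℝ)) = -(fun j => (w j : ℝ)) := by ext j; simp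
  rw [this, Matrix.mulVec_neg]

theorem pt_add {n : ℕ} (A : Matrix (Fin n) (Fin n) ℝ) (v w : Fin n → ℤ) :
    pt A (v + w) = pt A v + pt A w := by
  unfold pt
  have : (fun j => ((v + w) j : ℝ)) = (fun j => (v j : ℝ)) + (fun j => (w j : ℝ)) := by
    ext j; simp
  rw [this, Matrix.mulVec_add]

theorem pt_zero {n : ℕ} (A : Matrix (Fin n) (Fin n) ℝ) : pt A 0 = 0 := by
  unfold pt
  have : (fun j => ((0 : Fin n → ℤ) j : ℝ)) = 0 := by ext j; simp
  rw [this, Matrix.mulVec_zero]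

theorem inn_neg {n : ℕ} (A : Matrix (Fin n) (Fin n) ℝ) (z : Fin n → ℝ) (w : Fin n → ℤ) :
    inn A z (-w) = -inn A z w := by
  unfold inn
  rw [pt_neg]
  simp [Finset.sum_neg_distrib]

theorem inn_add {n : ℕ} (A : Matrix (Fin n) (Fin n) ℝ) (z : Fin n → ℝ) (v w : Fin n → ℤ) :
    inn A z (v + w) = inn A z v + inn A z w := by
  unfold inn
  rw [pt_add, ← Finset.sum_add_distrib]
  exact Finset.sum_congr rfl fun i _ => by simp only [Pi.add_apply]; ring

theorem inn_zero {n : ℕ} (A : Matrix (Fin n) (Fin n) ℝ) (z : Fin n → ℝ) : inn A z 0 = 0 := by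
  unfold inn
  rw [pt_zero]
  simp

theorem inn_smul {n : ℕ} (A : Matrix (Fin n) (Fin n) ℝ) (t : ℝ) (z : Fin n → ℝ) (w : Fin n → ℤ) :
    inn A (t • z) w = t * inn A z w := by
  unfold inn
  rw [Finset.mul_sum]
  exact Finset.sum_congr rfl fun i _ => by simp only [Pi.smul_apply, smul_eq_mul]; ring

theorem near_pair {n : ℕ} {A : Matrix (Fin n) (Fin n) ℝ} {z : Fin n → ℝ} {w : Fin n → ℤ} :
    (Near A z w ∧ Near A z (-w)) ↔ 2 * |inn A z w| ≤ nsq A w := by
  rw [near_iff, near_iff, inn_neg, nsq_neg]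
  constructor
  · rintro ⟨h1, h2⟩
    have : |inn A z w| ≤ nsq A w / 2 := abs_le.2 ⟨by linarith, by linarith⟩
    linarith
  · intro h
    have h1 := le_abs_self (inn A z w)
    have h2 := neg_abs_le (inn A z w)
    constructor <;> linarith

/-- lattice vectors add up -/
theorem nsq_parallelogram {n : ℕ} (A : Matrix (Fin n) (Fin n) ℝ) (v w : Fin n → ℤ) :
    nsq A (v + w) + nsq A (v - w) = 2 * nsq A v + 2 * nsq A w := by
  rw [nsq_eq, nsq_eq, nsq_eq, nsq_eq, sub_eq_add_neg v w, pt_add, pt_add, pt_neg,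
    ← Finset.sum_add_distrib, Finset.mul_sum, Finset.mul_sum, ← Finset.sum_add_distrib]
  exact Finset.sum_congr rfl fun i _ => by simp only [Pi.add_apply, Pi.neg_apply]; ring

end Pool.Agent.Q197.VR
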