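import Pool.Agent.Q197.VR.Pairs

/-! Lower bound: direct sums of dense lattices of small dimension. -/

set_option autoImplicit false

namespace Pool.Agent.Q197.VR

open Matrix Finset Pool.Agent.H160R3.Herm Pool.Agent.TH220.HG

theorem block {k : ℕ} (hk : 0 < k) : ∃ A : Matrix (Fin k) (Fin k) ℝ, A.det ≠ 0 ∧ 1 ≤ minSq A ∧
    |A.det| ^ 2 ≤ (145 / k : ℝ) ^ k ∧ FewPairs A (2 ^ k - 1) := by
  have hk' : (0 : ℝ) < k := by exact_mod_cast hk
  obtain ⟨A, hA, hlt⟩ := exists_lt_value (n := k) (a := (k : ℝ) / 145)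
    (lt_of_lt_of_le (by
      rw [div_lt_div_iff₀ (by norm_num) (by norm_num)]
      nlinarith) (hermite_ge hk))
  have hα := minSq_pos hk hA
  set α := minSq A with hαd
  set s := (√α)⁻¹ with hs
  have hs0 : 0 < s := by positivity
  have hs2 : s ^ 2 * α = 1 := by
    rw [hs, inv_pow, Real.sq_sqrt hα.le, inv_mul_cancel₀ hα.ne']
  have hdet : (s • A).det = s ^ k * A.det := by
    rw [Matrix.det_smul, Fintype.card_fin]
  have hd : 0 < |A.det| := abs_pos.mpr hA
  refine ⟨s • A, ?_, ?_, ?_, (voronoi hA).smul hs0⟩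
  · rw [hdet]
    positivity
  · apply le_minSq hk
    intro w hw
    have := minSq_smul_le A s w hw
    rw [← hαd, hs2] at this
    exact this
  · have h1 := pow_value hk α |A.det| hd
    have h2 : ((k : ℝ) / 145) ^ k ≤ α ^ k / |A.det| ^ 2 := by
      rw [← h1]
      exact pow_le_pow_left₀ (by positivity) hlt.le k
    rw [hdet, abs_mul, abs_of_pos (pow_pos hs0 k), mul_pow]
    have h3 : (s ^ k) ^ 2 = (α ^ k)⁻¹ := by
      rw [← pow_mul, mul_comm k 2, pow_mul, ← inv_pow]
      congr 1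
      exact eq_inv_of_mul_eq_one_left hs2
    rw [h3]
    have h4 : (α ^ k)⁻¹ * |A.det| ^ 2 = (α ^ k / |A.det| ^ 2)⁻¹ := by
      rw [inv_div]
      field_simp
    rw [h4]
    have h5 : (145 / k : ℝ) ^ k = (((k : ℝ) / 145) ^ k)⁻¹ := by
      rw [← inv_pow, inv_div]
    rw [h5]
    exact inv_anti₀ (by positivity) h2

theorem one_le_minSq_bsum {n m : ℕ} (hnm : 0 < n + m) {A : Matrix (Fin n) (Fin n) ℝ}
    {B : Matrix (Fin m) (Fin m) ℝ} (hA : 1 ≤ minSq A) (hB : 1 ≤ minSq B) :
    1 ≤ minSq (bsum A B) := by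
  apply le_minSq hnm
  intro w hw
  rw [sum_bsum]
  have hcases : (fun j => w (Fin.castAdd m j)) ≠ 0 ∨ (fun j => w (Fin.natAdd n j)) ≠ 0 := by
    by_contra hcon
    push Not at hcon
    apply hw
    ext i
    refine Fin.addCases (fun j => ?_) (fun j => ?_) i
    · exact congrFun hcon.1 j
    · exact congrFun hcon.2 j
  have p1 : 0 ≤ ∑ i, (Matrix.mulVec A (fun j => (w (Fin.castAdd m j) : ℝ))) i ^ 2 :=
    Finset.sum_nonneg fun _ _ => sq_nonneg _
  have p2 : 0 ≤ ∑ i, (Matrix.mulVec B (fun j => (w (Fin.natAdd n j) : ℝ))) i ^ 2 :=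
    Finset.sum_nonneg fun _ _ => sq_nonneg _
  rcases hcases with h | h
  · have := minSq_le A _ h
    linarith
  · have := minSq_le B _ h
    linarith

theorem blocks {m : ℕ} (hm : 0 < m) : ∀ n : ℕ, m ≤ n → ∃ A : Matrix (Fin n) (Fin n) ℝ,
    A.det ≠ 0 ∧ 1 ≤ minSq A ∧ |A.det| ^ 2 ≤ (145 / m : ℝ) ^ n ∧ FewPairs A (n * 4 ^ m) := by
  intro n
  induction n using Nat.strong_induction_on with
  | _ n ih =>
    intro hmn
    have hm' : (0 : ℝ) < m := by exact_mod_cast hm
    rcases lt_or_ge n (2 * m) with h | h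
    · obtain ⟨A, h1, h2, h3, h4⟩ := block (k := n) (by omega)
      refine ⟨A, h1, h2, h3.trans ?_, h4.mono ?_⟩
      · apply pow_le_pow_left₀ (by positivity)
        apply div_le_div_of_nonneg_left (by norm_num) hm'
        exact_mod_cast hmn
      · have h5 : 2 ^ n ≤ 4 ^ m := by
          calc 2 ^ n ≤ 2 ^ (2 * m) := Nat.pow_le_pow_right (by norm_num) h.le
            _ = 4 ^ m := by rw [pow_mul]; norm_num
        have h6 : 4 ^ m ≤ n * 4 ^ m := Nat.le_mul_of_pos_left _ (by omega)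
        omega
    · obtain ⟨k, rfl⟩ : ∃ k, n = k + m := ⟨n - m, by omega⟩
      obtain ⟨A, h1, h2, h3, h4⟩ := ih k (by omega) (by omega)
      obtain ⟨B, g1, g2, g3, g4⟩ := block hm
      refine ⟨bsum A B, ?_, one_le_minSq_bsum (by omega) h2 g2, ?_, (h4.bsum g4).mono ?_⟩
      · rw [det_bsum]
        exact mul_ne_zero h1 g1
      · rw [det_bsum, abs_mul, mul_pow, pow_add]
        exact mul_le_mul h3 g3 (by positivity) (by positivity)
      · have h5 : 2 ^ m ≤ 4 ^ m := Nat.pow_le_pow_left (by norm_num) m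
        have h6 : 4 ^ m ≤ m * 4 ^ m := Nat.le_mul_of_pos_left _ hm
        rw [add_mul]
        omega

theorem gam_ge {n : ℕ} (hn : 0 < n) {A : Matrix (Fin n) (Fin n) ℝ} (hA : A.det ≠ 0)
    (h1 : 1 ≤ minSq A) {D : ℝ} (hD : 0 < D) (h2 : |A.det| ^ 2 ≤ D⁻¹ ^ n) : D ≤ gam A := by
  have hd : 0 < |A.det| := abs_pos.mpr hA
  have hn' : (0 : ℝ) < n := by exact_mod_cast hn
  have h3 : |A.det| ^ ((2 : ℝ) / n) ≤ D⁻¹ := by
    have e1 : |A.det| ^ ((2 : ℝ) / n) = (|A.det| ^ 2) ^ ((1 : ℝ) / n) := by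
      rw [← Real.rpow_natCast, ← Real.rpow_mul hd.le]
      congr 1
      push_cast
      ring
    have e2 : D⁻¹ = (D⁻¹ ^ n) ^ ((1 : ℝ) / n) := by
      rw [← Real.rpow_natCast, ← Real.rpow_mul (by positivity)]
      rw [mul_one_div, div_self hn'.ne', Real.rpow_one]
    rw [e1, e2]
    exact Real.rpow_le_rpow (by positivity) h2 (by positivity)
  unfold gam
  rw [le_div_iff₀ (by positivity)]
  calc D * |A.det| ^ ((2 : ℝ) / n) ≤ D * D⁻¹ := mul_le_mul_of_nonneg_left h3 hD.le
    _ = 1 := mul_inv_cancel₀ hD.ne'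
    _ ≤ minSq A := h1

theorem bdd (n F : ℕ) (hn : 0 < n) :
    BddAbove {g : ℝ | ∃ A : Matrix (Fin n) (Fin n) ℝ, A.det ≠ 0 ∧ FewPairs A F ∧ g = gam A} :=
  ⟨n, by rintro _ ⟨A, hA, _, rfl⟩; exact value_le hn A hA⟩

theorem le_restricted {n F : ℕ} (hn : 0 < n) {A : Matrix (Fin n) (Fin n) ℝ} (hA : A.det ≠ 0)
    (h : FewPairs A F) : gam A ≤ restricted n F :=
  le_csSup (bdd n F hn) ⟨A, hA, h, rfl⟩

theorem one_le_restricted {n F : ℕ} (hn : 0 < n) (hF : n ≤ F) : 1 ≤ restricted n F := by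
  have h := le_restricted hn (A := 1) (by simp) ((fewPairs_one n).mono hF)
  refine le_trans ?_ h
  exact gam_ge hn (by simp) (one_le_minSq_one hn) one_pos (by simp)

theorem block_le_restricted {n F m : ℕ} (hm : 0 < m) (hmn : m ≤ n) (hF : n * 4 ^ m ≤ F) :
    (m : ℝ) / 145 ≤ restricted n F := by
  have hm' : (0 : ℝ) < m := by exact_mod_cast hm
  obtain ⟨A, h1, h2, h3, h4⟩ := blocks hm n hmn
  refine (gam_ge (by omega) h1 h2 (D := (m : ℝ) / 145) (by positivity) ?_).trans
    (le_restricted (by omega) h1 (h4.mono hF))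
  rw [inv_div]
  exact h3

/-- the lower bound -/
theorem lower {n F : ℕ} (hn : 0 < n) (hF : n ≤ F) :
    min (n : ℝ) (1 + Real.log (F / n)) / 600 ≤ restricted n F := by
  have hn' : (0 : ℝ) < n := by exact_mod_cast hn
  have hF' : (n : ℝ) ≤ F := by exact_mod_cast hF
  have hR : 1 ≤ (F : ℝ) / n := by rwa [one_le_div hn']
  set q := F / n with hq
  have hq1 : 1 ≤ q := by rw [hq]; exact (Nat.one_le_div_iff hn).2 hF
  set l := Nat.log 4 q with hl
  have hlq : 4 ^ l ≤ q := Nat.pow_log_le_self 4 (by omega)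
  have hql : q < 4 ^ (l + 1) := Nat.lt_pow_succ_log_self (by norm_num) q
  have hFq : (F : ℝ) / n < 4 ^ (l + 1) := by
    have h1 : F < n * (q + 1) := by
      rw [hq]
      exact Nat.lt_mul_div_succ F hn
    have h2 : n * (q + 1) ≤ n * 4 ^ (l + 1) := Nat.mul_le_mul_left _ hql
    rw [div_lt_iff₀ hn']
    have h3 : F < n * 4 ^ (l + 1) := lt_of_lt_of_le h1 h2
    have h4 : (F : ℝ) < n * 4 ^ (l + 1) := by exact_mod_cast h3
    linarith
  have hlog4 : Real.log 4 ≤ 1.4 := by
    have h1 : Real.log 4 = 2 * Real.log 2 := by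
      rw [show (4 : ℝ) = 2 ^ 2 by norm_num, Real.log_pow]
      norm_num
    have := Real.log_two_lt_d9
    rw [h1]
    linarith
  have hlogF : Real.log (F / n) ≤ (l + 1) * 1.4 := by
    calc Real.log (F / n) ≤ Real.log (4 ^ (l + 1)) :=
          Real.log_le_log (by linarith) hFq.le
      _ = (l + 1) * Real.log 4 := by rw [Real.log_pow]; push_cast; ring
      _ ≤ (l + 1) * 1.4 := mul_le_mul_of_nonneg_left hlog4 (by positivity)
  rcases Nat.eq_zero_or_pos l with h0 | h0
  · have h1 := one_le_restricted hn hF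
    rw [h0] at hlogF
    have h2 : min (n : ℝ) (1 + Real.log (F / n)) ≤ 3 :=
      (min_le_right _ _).trans (by norm_num at hlogF ⊢; linarith)
    linarith
  · have hl1 : (1 : ℝ) ≤ l := by exact_mod_cast h0
    rcases le_or_gt l n with h1 | h1
    · have h2 := block_le_restricted (F := F) h0 h1 (by
        calc n * 4 ^ l ≤ n * q := Nat.mul_le_mul_left _ hlq
          _ ≤ F := Nat.mul_div_le F n)
      have h3 : min (n : ℝ) (1 + Real.log (F / n)) ≤ 4 * l :=
        (min_le_right _ _).trans (by nlinarith)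
      linarith
    · have h2 := block_le_restricted (F := F) hn le_rfl (by
        calc n * 4 ^ n ≤ n * 4 ^ l := Nat.mul_le_mul_left _ (Nat.pow_le_pow_right (by norm_num) h1.le)
          _ ≤ n * q := Nat.mul_le_mul_left _ hlq
          _ ≤ F := Nat.mul_div_le F n)
      have h3 : min (n : ℝ) (1 + Real.log (F / n)) ≤ n := min_le_left _ _
      linarith

/-- all lattices are covered -/
theorem restricted_eq {n F : ℕ} (hF : 2 ^ n - 1 ≤ F) : restricted n F = hermite n := by
  unfold restricted hermite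
  congr 1
  ext g
  constructor
  · rintro ⟨A, h1, _, rfl⟩
    exact ⟨⟨A, h1⟩, rfl⟩
  · rintro ⟨⟨A, h1⟩, rfl⟩
    exact ⟨A, h1, (voronoi h1).mono hF, rfl⟩

/-- no lattice has fewer than `n` pairs of relevant vectors -/
theorem dim_le {n F : ℕ} {A : Matrix (Fin n) (Fin n) ℝ} (hA : A.det ≠ 0) (h : FewPairs A F) :
    n ≤ F := by
  classical
  obtain ⟨S, h1, h2⟩ := h
  by_contra hlt
  push Not at hlt
  set f : (Fin n → ℝ) →ₗ[ℝ] (S → ℝ) :=
    { toFun := fun z w => inn A z w.1
      map_add' := fun x y => by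
        ext w
        simp only [inn, Pi.add_apply, ← Finset.sum_add_distrib]
        exact Finset.sum_congr rfl fun i _ => by ring
      map_smul' := fun c x => by
        ext w
        simp only [RingHom.id_apply, Pi.smul_apply, smul_eq_mul]
        exact inn_smul A c x w.1 } with hf
  have hker : LinearMap.ker f ≠ ⊥ := by
    apply LinearMap.ker_ne_bot_of_finrank_lt
    rw [Module.finrank_fintype_fun_eq_card, Module.finrank_fintype_fun_eq_card, Fintype.card_coe,
      Fintype.card_fin]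
    omega
  obtain ⟨z, hz, hz0⟩ := Submodule.exists_mem_ne_zero_of_ne_bot hker
  have hzS : ∀ w ∈ S, inn A z w = 0 := by
    intro w hw
    have : f z = 0 := hz
    exact congrFun this ⟨w, hw⟩
  have hall : ∀ (t : ℝ) (w : Fin n → ℤ), 2 * (t * inn A z w) ≤ nsq A w := by
    intro t w
    have := h2 (t • z) (fun u hu => by
      rw [near_pair, inn_smul, hzS u hu]
      simp only [mul_zero, abs_zero]
      exact nsq_nonneg A u) w
    rw [near_iff, inn_smul] at this
    exact this
  have hzero : ∀ w : Fin n → ℤ, inn A z w = 0 := by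
    intro w
    by_contra hne
    have := hall ((nsq A w + 1) / inn A z w) w
    rw [div_mul_cancel₀ _ hne] at this
    have := nsq_nonneg A w
    linarith
  apply hz0
  have hv : Matrix.vecMul z A = 0 := by
    ext j
    have h3 := hzero (Pi.single j 1)
    have h4 : inn A z (Pi.single j 1) = Matrix.vecMul z A j := by
      unfold inn pt Matrix.vecMul dotProduct
      refine Finset.sum_congr rfl fun i _ => ?_
      congr 1
      simp only [Matrix.mulVec, dotProduct]
      rw [Finset.sum_eq_single j]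
      · simp
      · intro k _ hk
        simp [Pi.single_eq_of_ne hk]
      · simp
    rw [← h4, h3]
    rfl
  exact Matrix.eq_zero_of_vecMul_eq_zero hA hv

end Pool.Agent.Q197.VR
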