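import Pool.Agent.Q197.VR.Upper

/-! The restricted Hermite constant. -/

set_option autoImplicit false

namespace Pool.Agent.Q197.VR

open Matrix Finset Filter Pool.Agent.H160R3.Herm Pool.Agent.TH220.HG
open scoped Topology

theorem log_const {R : ℝ} (hR : 1 ≤ R) :
    8 / Real.pi * Real.log (8 * R) ≤ 6 * (1 + Real.log R) := by
  have h8 : Real.log 8 ≤ 2.0797 := by
    have h1 : Real.log 8 = 3 * Real.log 2 := by
      rw [show (8 : ℝ) = 2 ^ 3 by norm_num, Real.log_pow]
      norm_num
    have := Real.log_two_lt_d9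
    rw [h1]
    linarith
  have hR0 : 0 ≤ Real.log R := Real.log_nonneg hR
  have hp : 8 / Real.pi ≤ 2.55 := by
    rw [div_le_iff₀ Real.pi_pos]
    have := Real.pi_gt_d4
    nlinarith
  rw [Real.log_mul (by norm_num) (by linarith)]
  have h8' : 0 ≤ Real.log 8 := Real.log_nonneg (by norm_num)
  nlinarith [mul_le_mul hp (add_le_add h8 le_rfl : Real.log 8 + Real.log R ≤ 2.0797 + Real.log R)
    (by linarith) (by norm_num : (0 : ℝ) ≤ 2.55)]

theorem restricted_le {n F : ℕ} (hn : 0 < n) (hF : n ≤ F) :
    restricted n F ≤ 6 * min (n : ℝ) (1 + Real.log (F / n)) := by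
  have hn' : (0 : ℝ) < n := by exact_mod_cast hn
  have hF' : (n : ℝ) ≤ F := by exact_mod_cast hF
  have hR : 1 ≤ (F : ℝ) / n := by rwa [one_le_div hn']
  refine csSup_le ⟨_, 1, by simp, (fewPairs_one n).mono hF, rfl⟩ ?_
  rintro _ ⟨A, hA, h, rfl⟩
  rw [mul_min_of_nonneg _ _ (by norm_num : (0 : ℝ) ≤ 6)]
  refine le_min ?_ ?_
  · have := value_le hn A hA
    have h2 : gam A ≤ n := this
    linarith
  · have h1 := upper hn hF hA h
    rw [mul_div_assoc] at h1
    exact h1.trans (log_const hR)

/-- many relevant vectors are necessary -/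
theorem many {n F : ℕ} (hn : 0 < n) {A : Matrix (Fin n) (Fin n) ℝ} (hA : A.det ≠ 0)
    (h : FewPairs A F) {ε : ℝ} (hε : ε * n ≤ gam A) :
    n / 8 * Real.exp (Real.pi / 8 * ε * n) ≤ F := by
  have hn' : (0 : ℝ) < n := by exact_mod_cast hn
  have hF := dim_le hA h
  have hF' : (n : ℝ) ≤ F := by exact_mod_cast hF
  have hpi := Real.pi_pos
  have h1 := hε.trans (upper hn hF hA h)
  have h2 : Real.pi / 8 * ε * n ≤ Real.log (8 * F / n) := by
    calc Real.pi / 8 * ε * n = Real.pi / 8 * (ε * n) := by ring
      _ ≤ Real.pi / 8 * (8 / Real.pi * Real.log (8 * F / n)) := by gcongr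
      _ = Real.log (8 * F / n) := by field_simp
  have hF0 : (0 : ℝ) < F := by linarith
  have h3 : Real.exp (Real.pi / 8 * ε * n) ≤ 8 * F / n := by
    rw [← Real.exp_log (by positivity : (0 : ℝ) < 8 * F / n)]
    exact Real.exp_le_exp.2 h2
  calc n / 8 * Real.exp (Real.pi / 8 * ε * n) ≤ n / 8 * (8 * F / n) := by gcongr
    _ = F := by field_simp

theorem ratio_bounds {n F : ℕ} (hn : 0 < n) (hF : n ≤ F) :
    min 1 ((1 + Real.log (F / n)) / n) / 600 ≤ restricted n F / n ∧
    restricted n F / n ≤ 6 * ((1 + Real.log (F / n)) / n) := by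
  have hn' : (0 : ℝ) < n := by exact_mod_cast hn
  constructor
  · have h := lower hn hF
    have e : min 1 ((1 + Real.log (F / n)) / n) = min (n : ℝ) (1 + Real.log (F / n)) / n := by
      rw [← min_div_div_right hn'.le, div_self hn'.ne']
    rw [e, div_right_comm]
    gcongr
  · have h := restricted_le hn hF
    have h2 : restricted n F ≤ 6 * (1 + Real.log (F / n)) :=
      h.trans (mul_le_mul_of_nonneg_left (min_le_right _ _) (by norm_num))
    rw [← mul_div_assoc]
    gcongr

theorem one_plus_log (F : ℕ → ℕ) (hF : ∀ n, n ≤ F n) :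
    Tendsto (fun n : ℕ => (1 + Real.log (F n / n)) / (n : ℝ) - Real.log (F n) / n) atTop (𝓝 0) := by
  have h1 : Tendsto (fun n : ℕ => (1 : ℝ) / n - Real.log n / n) atTop (𝓝 (0 - 0)) := by
    refine Tendsto.sub tendsto_one_div_atTop_nhds_zero_nat ?_
    exact (Real.isLittleO_log_id_atTop.tendsto_div_nhds_zero).comp tendsto_natCast_atTop_atTop
  rw [sub_zero] at h1
  refine h1.congr' ?_
  filter_upwards [eventually_gt_atTop 0] with n hn
  have hn' : (0 : ℝ) < n := by exact_mod_cast hn
  have hF' : (0 : ℝ) < F n := lt_of_lt_of_le hn' (by exact_mod_cast hF n)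
  rw [Real.log_div hF'.ne' hn'.ne']
  ring

theorem iff_subexp (F : ℕ → ℕ) (hF : ∀ n, n ≤ F n) :
    Tendsto (fun n : ℕ => restricted n (F n) / n) atTop (𝓝 0) ↔
      Tendsto (fun n : ℕ => Real.log (F n) / n) atTop (𝓝 0) := by
  have key := one_plus_log F hF
  constructor
  · intro h
    have h1 : Tendsto (fun n : ℕ => min 1 ((1 + Real.log (F n / n)) / (n : ℝ))) atTop (𝓝 0) := by
      have h2 : Tendsto (fun n : ℕ => 600 * (restricted n (F n) / n)) atTop (𝓝 0) := by
        simpa using h.const_mul 600
      refine squeeze_zero' ?_ ?_ h2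
      · filter_upwards [eventually_gt_atTop 0] with n hn
        have hn' : (0 : ℝ) < n := by exact_mod_cast hn
        have hR : 1 ≤ (F n : ℝ) / n := by
          rw [one_le_div hn']
          exact_mod_cast hF n
        have := Real.log_nonneg hR
        exact le_min zero_le_one (by positivity)
      · filter_upwards [eventually_gt_atTop 0] with n hn
        have := (ratio_bounds hn (hF n)).1
        linarith
    have h3 : Tendsto (fun n : ℕ => (1 + Real.log (F n / n)) / (n : ℝ)) atTop (𝓝 0) := by
      refine h1.congr' ?_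
      filter_upwards [h1.eventually (gt_mem_nhds one_pos)] with n hn
      rcases min_choice 1 ((1 + Real.log (F n / n)) / (n : ℝ)) with h4 | h4
      · rw [h4] at hn
        exact absurd hn (lt_irrefl _)
      · exact h4
    have := h3.sub key
    simpa using this
  · intro h
    have h3 : Tendsto (fun n : ℕ => (1 + Real.log (F n / n)) / (n : ℝ)) atTop (𝓝 0) := by
      have := key.add h
      simpa using this
    refine squeeze_zero' ?_ ?_ (g := fun n : ℕ => 6 * ((1 + Real.log (F n / n)) / (n : ℝ))) ?_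
    · filter_upwards [eventually_gt_atTop 0] with n hn
      have := one_le_restricted hn (hF n)
      positivity
    · filter_upwards [eventually_gt_atTop 0] with n hn
      exact (ratio_bounds hn (hF n)).2
    · simpa using h3.const_mul 6

end Pool.Agent.Q197.VR
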