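import Pool.Agent.Q197.VR.Defs

/-! Voronoi's bound for the number of relevant vectors, direct sums, scaling. -/

set_option autoImplicit false

namespace Pool.Agent.Q197.VR

open Matrix Finset Pool.Agent.H160R3.Herm Pool.Agent.TH220.HG

/-- reduction modulo two -/
def red {n : ℕ} (w : Fin n → ℤ) : Fin n → ZMod 2 := fun i => (w i : ZMod 2)

theorem exists_min_class {n : ℕ} {A : Matrix (Fin n) (Fin n) ℝ} (hA : A.det ≠ 0)
    (c : Fin n → ZMod 2) : ∃ v : Fin n → ℤ, red v = c ∧ ∀ w, red w = c → nsq A v ≤ nsq A w := by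
  classical
  set e : Fin n → ℤ := fun i => ((c i).val : ℤ) with he
  have hec : red e = c := by
    ext i
    simp [red, he]
  have hfin : {w : Fin n → ℤ | red w = c ∧ nsq A w < nsq A e + 1}.Finite :=
    (finite_lt hA (nsq A e + 1)).subset fun w hw => hw.2
  obtain ⟨w, hw, hmin⟩ := hfin.toFinset.exists_min_image (nsq A)
    ⟨e, by rw [Set.Finite.mem_toFinset]; exact ⟨hec, by linarith⟩⟩
  rw [Set.Finite.mem_toFinset] at hw
  refine ⟨w, hw.1, fun z hz => ?_⟩
  by_cases h : nsq A z < nsq A e + 1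
  · exact hmin z (by rw [Set.Finite.mem_toFinset]; exact ⟨hz, h⟩)
  · push Not at h
    exact hw.2.le.trans h

theorem red_half {n : ℕ} {v w : Fin n → ℤ} (h : red v = red w) :
    ∃ a : Fin n → ℤ, w - v = a + a := by
  have h1 : ∀ i, ∃ b : ℤ, w i - v i = b + b := by
    intro i
    have h2 : ((w i - v i : ℤ) : ZMod 2) = 0 := by
      have := congrFun h i
      simp only [red] at this
      push_cast
      rw [this, sub_self]
    have h3 := (ZMod.intCast_zmod_eq_zero_iff_dvd _ 2).1 h2
    obtain ⟨b, hb⟩ := h3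
    exact ⟨b, by push_cast at hb; linarith⟩
  choose a ha using h1
  exact ⟨a, funext ha⟩

/-- **Voronoi.** Every lattice has at most `2^n - 1` pairs of relevant vectors. -/
theorem voronoi {n : ℕ} {A : Matrix (Fin n) (Fin n) ℝ} (hA : A.det ≠ 0) :
    FewPairs A (2 ^ n - 1) := by
  classical
  choose v hv1 hv2 using exists_min_class hA
  refine ⟨(Finset.univ.erase (0 : Fin n → ZMod 2)).image v, ?_, fun z hz w0 => ?_⟩
  · refine Finset.card_image_le.trans ?_
    rw [Finset.card_erase_of_mem (Finset.mem_univ _), Finset.card_univ, Fintype.card_fun]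
    simp
  by_contra hw0
  have hfin : {w : Fin n → ℤ | ¬ Near A z w ∧ nsq A w < nsq A w0 + 1}.Finite :=
    (finite_lt hA (nsq A w0 + 1)).subset fun w hw => hw.2
  obtain ⟨w, hw, hmin⟩ := hfin.toFinset.exists_min_image (nsq A)
    ⟨w0, by rw [Set.Finite.mem_toFinset]; exact ⟨hw0, by linarith⟩⟩
  rw [Set.Finite.mem_toFinset] at hw
  have hless : ∀ u, nsq A u < nsq A w → 2 * inn A z u ≤ nsq A u := by
    intro u hu
    rw [← near_iff]
    by_contra hn
    have := hmin u (by rw [Set.Finite.mem_toFinset]; exact ⟨hn, hu.trans hw.2⟩)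
    linarith
  apply hw.1
  have hwne : w ≠ 0 := by
    rintro rfl
    apply hw.1
    rw [near_iff, inn_zero]
    have := nsq_nonneg A (0 : Fin n → ℤ)
    linarith
  have hwpos := nsq_pos hA hwne
  obtain ⟨a, ha⟩ := red_half (hv1 (red w))
  set b := a + v (red w) with hb
  have e1 : w = b + a := by
    have : w = v (red w) + (w - v (red w)) := by ring
    rw [this, ha, hb]
    ring
  have e2 : v (red w) = b - a := by rw [hb]; ring
  have hpar := nsq_parallelogram A b a
  rw [← e1, ← e2] at hpar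
  have hvw := hv2 (red w) w rfl
  by_cases hr : red w = 0
  · -- the class of zero
    obtain ⟨u, hu⟩ := red_half (v := 0) (w := w) (by rw [hr]; ext i; simp [red])
    rw [sub_zero] at hu
    have h4 : nsq A w = 4 * nsq A u := by
      have h := nsq_smul A 2 u
      have e : (2 : ℤ) • u = w := by rw [hu]; ext i; simp [two_mul]
      rw [e] at h
      rw [h]
      norm_num
    have h5 := hless u (by linarith)
    rw [near_iff]
    have h6 : inn A z w = 2 * inn A z u := by rw [hu, inn_add]; ring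
    rw [h6, h4]
    linarith
  · have hS : v (red w) ∈ (Finset.univ.erase (0 : Fin n → ZMod 2)).image v :=
      Finset.mem_image_of_mem _ (Finset.mem_erase.2 ⟨hr, Finset.mem_univ _⟩)
    have hN := hz _ hS
    by_cases ha0 : a = 0
    · have h7 : w = v (red w) := by
        have h8 : v (red w) = w := by rw [e2, ha0, sub_zero, e1, ha0, add_zero]
        exact h8.symm
      have h9 := hN.1
      rwa [← h7] at h9
    by_cases hb0 : b = 0
    · have h7 : w = -v (red w) := by
        have h8 : v (red w) = -w := by rw [e2, hb0, zero_sub, e1, hb0, zero_add]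
        rw [h8, neg_neg]
      have h9 := hN.2
      rwa [← h7] at h9
    have pa := nsq_pos hA ha0
    have pb := nsq_pos hA hb0
    have qa := hless a (by linarith)
    have qb := hless b (by linarith)
    rw [near_iff]
    have : inn A z w = inn A z b + inn A z a := by rw [← inn_add, ← e1]
    rw [this]
    linarith

theorem FewPairs.mono {n : ℕ} {A : Matrix (Fin n) (Fin n) ℝ} {F G : ℕ} (h : FewPairs A F)
    (hFG : F ≤ G) : FewPairs A G := by
  obtain ⟨S, h1, h2⟩ := h
  exact ⟨S, h1.trans hFG, h2⟩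

theorem nsq_smul_mat {n : ℕ} (s : ℝ) (A : Matrix (Fin n) (Fin n) ℝ) (w : Fin n → ℤ) :
    nsq (s • A) w = s ^ 2 * nsq A w := by
  unfold nsq
  rw [Finset.mul_sum]
  refine Finset.sum_congr rfl fun i _ => ?_
  rw [Matrix.smul_mulVec]
  simp [mul_pow]

theorem inn_smul_mat {n : ℕ} (s : ℝ) (A : Matrix (Fin n) (Fin n) ℝ) (z : Fin n → ℝ)
    (w : Fin n → ℤ) : inn (s • A) z w = s * inn A z w := by
  unfold inn pt
  rw [Finset.mul_sum]
  refine Finset.sum_congr rfl fun i _ => ?_
  rw [Matrix.smul_mulVec]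
  simp only [Pi.smul_apply, smul_eq_mul]
  ring

theorem near_smul_mat {n : ℕ} {s : ℝ} (hs : 0 < s) (A : Matrix (Fin n) (Fin n) ℝ) (z : Fin n → ℝ)
    (w : Fin n → ℤ) : Near (s • A) (s • z) w ↔ Near A z w := by
  rw [near_iff, near_iff, inn_smul_mat, inn_smul, nsq_smul_mat]
  have e : 2 * (s * (s * inn A z w)) = s ^ 2 * (2 * inn A z w) := by ring
  rw [e]
  exact mul_le_mul_iff_right₀ (by positivity)

theorem FewPairs.smul {n : ℕ} {A : Matrix (Fin n) (Fin n) ℝ} {F : ℕ} (h : FewPairs A F) {s : ℝ}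
    (hs : 0 < s) : FewPairs (s • A) F := by
  obtain ⟨S, h1, h2⟩ := h
  refine ⟨S, h1, fun z hz w => ?_⟩
  have e : z = s • (s⁻¹ • z) := by rw [smul_smul, mul_inv_cancel₀ hs.ne', one_smul]
  rw [e, near_smul_mat hs]
  refine h2 _ (fun u hu => ?_) w
  rw [← near_smul_mat hs A _ u, ← near_smul_mat hs A _ (-u), ← e]
  exact hz u hu

/-- the first part of a vector -/
def fst' {n m : ℕ} {α : Type*} (w : Fin (n + m) → α) : Fin n → α := fun j => w (Fin.castAdd m j)

/-- the second part of a vector -/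
def snd' {n m : ℕ} {α : Type*} (w : Fin (n + m) → α) : Fin m → α := fun j => w (Fin.natAdd n j)

theorem pt_bsum_left {n m : ℕ} (A : Matrix (Fin n) (Fin n) ℝ) (B : Matrix (Fin m) (Fin m) ℝ)
    (w : Fin (n + m) → ℤ) (i : Fin n) : pt (bsum A B) w (Fin.castAdd m i) = pt A (fst' w) i := by
  simp only [pt, Matrix.mulVec, dotProduct]
  rw [Fin.sum_univ_add]
  simp [bsum, fst']

theorem pt_bsum_right {n m : ℕ} (A : Matrix (Fin n) (Fin n) ℝ) (B : Matrix (Fin m) (Fin m) ℝ)
    (w : Fin (n + m) → ℤ) (i : Fin m) : pt (bsum A B) w (Fin.natAdd n i) = pt B (snd' w) i := by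
  simp only [pt, Matrix.mulVec, dotProduct]
  rw [Fin.sum_univ_add]
  simp [bsum, snd']

theorem nsq_bsum {n m : ℕ} (A : Matrix (Fin n) (Fin n) ℝ) (B : Matrix (Fin m) (Fin m) ℝ)
    (w : Fin (n + m) → ℤ) : nsq (bsum A B) w = nsq A (fst' w) + nsq B (snd' w) := by
  rw [nsq_eq, nsq_eq, nsq_eq, Fin.sum_univ_add]
  simp only [pt_bsum_left, pt_bsum_right]

theorem inn_bsum {n m : ℕ} (A : Matrix (Fin n) (Fin n) ℝ) (B : Matrix (Fin m) (Fin m) ℝ)
    (z : Fin (n + m) → ℝ) (w : Fin (n + m) → ℤ) :
    inn (bsum A B) z w = inn A (fst' z) (fst' w) + inn B (snd' z) (snd' w) := by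
  unfold inn
  rw [Fin.sum_univ_add]
  simp only [pt_bsum_left, pt_bsum_right]
  rfl

theorem fst_append {n m : ℕ} {α : Type*} (u : Fin n → α) (v : Fin m → α) :
    fst' (Fin.append u v) = u := by
  ext i
  simp [fst']

theorem snd_append {n m : ℕ} {α : Type*} (u : Fin n → α) (v : Fin m → α) :
    snd' (Fin.append u v) = v := by
  ext i
  simp [snd']

theorem nsq_zero_vec {n : ℕ} (A : Matrix (Fin n) (Fin n) ℝ) : nsq A 0 = 0 := by
  rw [nsq_eq, pt_zero]
  simp

theorem FewPairs.bsum {n m : ℕ} {A : Matrix (Fin n) (Fin n) ℝ} {B : Matrix (Fin m) (Fin m) ℝ}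
    {F G : ℕ} (hA : FewPairs A F) (hB : FewPairs B G) : FewPairs (bsum A B) (F + G) := by
  classical
  obtain ⟨S, h1, h2⟩ := hA
  obtain ⟨T, h3, h4⟩ := hB
  refine ⟨S.image (fun w => Fin.append w 0) ∪ T.image (fun w => Fin.append 0 w), ?_,
    fun z hz w => ?_⟩
  · refine (Finset.card_union_le _ _).trans ?_
    exact add_le_add (Finset.card_image_le.trans h1) (Finset.card_image_le.trans h3)
  · have hl : ∀ u, Near A (fst' z) u := by
      refine h2 _ fun u hu => ?_
      have := hz (Fin.append u 0) (Finset.mem_union_left _ (Finset.mem_image_of_mem _ hu))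
      rw [near_pair] at this ⊢
      rw [nsq_bsum, inn_bsum, fst_append, snd_append, nsq_zero_vec, inn_zero] at this
      simpa using this
    have hr : ∀ u, Near B (snd' z) u := by
      refine h4 _ fun u hu => ?_
      have := hz (Fin.append 0 u) (Finset.mem_union_right _ (Finset.mem_image_of_mem _ hu))
      rw [near_pair] at this ⊢
      rw [nsq_bsum, inn_bsum, fst_append, snd_append, nsq_zero_vec, inn_zero] at this
      simpa using this
    have a1 := near_iff.1 (hl (fst' w))
    have a2 := near_iff.1 (hr (snd' w))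
    rw [near_iff, nsq_bsum, inn_bsum]
    linarith

/-- the integer lattice -/
theorem fewPairs_one (n : ℕ) : FewPairs (1 : Matrix (Fin n) (Fin n) ℝ) n := by
  classical
  have hpt : ∀ w : Fin n → ℤ, pt (1 : Matrix (Fin n) (Fin n) ℝ) w = fun j => (w j : ℝ) := by
    intro w
    unfold pt
    rw [Matrix.one_mulVec]
  refine ⟨Finset.univ.image (fun i : Fin n => (Pi.single i 1 : Fin n → ℤ)), ?_, fun z hz w => ?_⟩
  · refine Finset.card_image_le.trans ?_
    simp
  · have hz' : ∀ i, 2 * |z i| ≤ 1 := by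
      intro i
      have := hz (Pi.single i 1) (Finset.mem_image_of_mem _ (Finset.mem_univ i))
      rw [near_pair, nsq_eq, inn, hpt] at this
      have e1 : ∑ j, z j * ((Pi.single i 1 : Fin n → ℤ) j : ℝ) = z i := by
        rw [Finset.sum_eq_single i]
        · simp
        · intro j _ hj
          simp [Pi.single_eq_of_ne hj]
        · simp
      have e2 : ∑ j, ((Pi.single i 1 : Fin n → ℤ) j : ℝ) ^ 2 = 1 := by
        rw [Finset.sum_eq_single i]
        · simp
        · intro j _ hj
          simp [Pi.single_eq_of_ne hj]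
        · simp
      rw [e1, e2] at this
      exact this
    rw [near_iff, nsq_eq, inn, hpt, Finset.mul_sum]
    refine Finset.sum_le_sum fun i _ => ?_
    change 2 * (z i * (w i : ℝ)) ≤ (w i : ℝ) ^ 2
    rcases eq_or_ne (w i) 0 with h0 | h0
    · rw [h0]
      simp
    · have h1 : (1 : ℝ) ≤ |(w i : ℝ)| := by
        have : 1 ≤ |w i| := Int.one_le_abs h0
        exact_mod_cast this
      calc 2 * (z i * (w i : ℝ)) ≤ 2 * |z i * (w i : ℝ)| := by
            have := le_abs_self (z i * (w i : ℝ))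
            linarith
        _ = 2 * |z i| * |(w i : ℝ)| := by rw [abs_mul]; ring
        _ ≤ 1 * |(w i : ℝ)| := mul_le_mul_of_nonneg_right (hz' i) (abs_nonneg _)
        _ ≤ |(w i : ℝ)| * |(w i : ℝ)| := mul_le_mul_of_nonneg_right h1 (abs_nonneg _)
        _ = (w i : ℝ) ^ 2 := by rw [← sq, sq_abs]

end Pool.Agent.Q197.VR
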