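import Pool.Agent.Q197.VR.Lower
import Pool.Agent.Q189.Spencer

/-! Upper bound: the Gaussian measure of a polytope with few facets. -/

set_option autoImplicit false

namespace Pool.Agent.Q197.VR

open Matrix Finset MeasureTheory Pool.Agent.H160R3.Herm Pool.Agent.TH220.HG
open Pool.Agent.PZ871 (E gm)
open scoped RealInnerProductSpace ENNReal Pointwise

/-- a measurable set with disjoint translates under the lattice has volume at most the
determinant -/
theorem packing_vol {n : ℕ} {A : Matrix (Fin n) (Fin n) ℝ} (hA : A.det ≠ 0)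
    {s : Set (Fin n → ℝ)} (hs : MeasurableSet s)
    (hsep : ∀ x ∈ s, ∀ y ∈ s, ∀ w : Fin n → ℤ, w ≠ 0 → x - y ≠ pt A w) :
    volume s ≤ ENNReal.ofReal |A.det| := by
  classical
  set b := Pi.basisFun ℝ (Fin n) with hb
  set L : AddSubgroup (Fin n → ℝ) := (Submodule.span ℤ (Set.range b)).toAddSubgroup with hL
  have fund : IsAddFundamentalDomain L (ZSpan.fundamentalDomain b) volume :=
    ZSpan.isAddFundamentalDomain' b volume
  have hvol : volume (ZSpan.fundamentalDomain b) = 1 := by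
    rw [ZSpan.volume_fundamentalDomain]
    have : (Matrix.of b) = (1 : Matrix (Fin n) (Fin n) ℝ) := by
      ext i j
      simp [hb, Matrix.one_apply, Pi.single_apply, eq_comm]
    rw [this]
    simp
  have hdet : IsUnit A.det := isUnit_iff_ne_zero.mpr hA
  set g : (Fin n → ℝ) →ₗ[ℝ] (Fin n → ℝ) := Matrix.toLin' A with hg
  have hgdet : LinearMap.det g = A.det := by rw [hg, LinearMap.det_toLin']
  have hgc : Continuous g := LinearMap.continuous_of_finiteDimensional g
  set t : Set (Fin n → ℝ) := g ⁻¹' s with ht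
  have htm : MeasurableSet t := hgc.measurable hs
  have hvt : volume t = ENNReal.ofReal |A.det|⁻¹ * volume s := by
    rw [ht, Measure.addHaar_preimage_linearMap volume (by rw [hgdet]; exact hA), hgdet, abs_inv]
  have hcount : Countable L :=
    inferInstanceAs (Countable (Submodule.span ℤ (Set.range b)))
  have h1 : volume t ≤ 1 := by
    by_contra hlt
    push Not at hlt
    rw [← hvol] at hlt
    obtain ⟨x, y, hxy, hd⟩ := exists_pair_mem_lattice_not_disjoint_vadd fund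
      htm.nullMeasurableSet hlt
    rw [Set.not_disjoint_iff] at hd
    obtain ⟨z, hz1, hz2⟩ := hd
    obtain ⟨u, hu, hu'⟩ := hz1
    obtain ⟨v, hv, hv'⟩ := hz2
    have e1 : (x : Fin n → ℝ) + u = z := hu'
    have e2 : (y : Fin n → ℝ) + v = z := hv'
    have hd : (y - x : L) ≠ 0 := sub_ne_zero.2 (Ne.symm hxy)
    have hxL : ((y - x : L) : Fin n → ℝ) ∈ Submodule.span ℤ (Set.range b) := (y - x).2
    rw [b.mem_span_iff_repr_mem ℤ] at hxL
    choose w hw using hxL
    have hxw : ((y - x : L) : Fin n → ℝ) = fun j => (w j : ℝ) := by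
      ext j
      have := hw j
      simp [hb] at this
      exact this.symm
    have hw0 : w ≠ 0 := by
      rintro rfl
      apply hd
      apply Subtype.ext
      rw [hxw]
      ext j
      simp
    refine hsep (g u) hu (g v) hv w hw0 ?_
    have e3 : u - v = fun j => (w j : ℝ) := by
      rw [← hxw]
      have : ((y - x : L) : Fin n → ℝ) = (y : Fin n → ℝ) - x := rfl
      rw [this, sub_eq_sub_iff_add_eq_add, add_comm u, e1, e2]
    rw [← map_sub, e3, hg, Matrix.toLin'_apply]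
    rfl
  have hd0 : ENNReal.ofReal |A.det| * ENNReal.ofReal |A.det|⁻¹ = 1 := by
    rw [← ENNReal.ofReal_mul (abs_nonneg _), mul_inv_cancel₀ (abs_pos.2 hA).ne',
      ENNReal.ofReal_one]
  calc volume s = ENNReal.ofReal |A.det| * (ENNReal.ofReal |A.det|⁻¹ * volume s) := by
        rw [← mul_assoc, hd0, one_mul]
    _ = ENNReal.ofReal |A.det| * volume t := by rw [hvt]
    _ ≤ ENNReal.ofReal |A.det| * 1 := mul_le_mul_right h1 _
    _ = _ := mul_one _

/-- the shrunken cell -/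
def cell {n : ℕ} (A : Matrix (Fin n) (Fin n) ℝ) (S : Finset (Fin n → ℤ)) (θ : ℝ) :
    Set (Fin n → ℝ) := {z | ∀ w ∈ S, 2 * |inn A z w| ≤ θ * nsq A w}

theorem cell_closed {n : ℕ} (A : Matrix (Fin n) (Fin n) ℝ) (S : Finset (Fin n → ℤ)) (θ : ℝ) :
    IsClosed (cell A S θ) := by
  have : cell A S θ = ⋂ w ∈ S, {z | 2 * |inn A z w| ≤ θ * nsq A w} := by
    ext z
    simp [cell]
  rw [this]
  refine isClosed_biInter fun w _ => isClosed_le ?_ continuous_const
  unfold inn
  fun_prop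

theorem inn_pt {n : ℕ} (A : Matrix (Fin n) (Fin n) ℝ) (w : Fin n → ℤ) :
    inn A (pt A w) w = nsq A w := by
  rw [nsq_eq, inn]
  exact Finset.sum_congr rfl fun i _ => by ring

theorem cell_vol {n : ℕ} {A : Matrix (Fin n) (Fin n) ℝ} (hA : A.det ≠ 0)
    {S : Finset (Fin n → ℤ)}
    (hS : ∀ z : Fin n → ℝ, (∀ w ∈ S, Near A z w ∧ Near A z (-w)) → ∀ w : Fin n → ℤ, Near A z w)
    {θ : ℝ} (h0 : 0 < θ) (h1 : θ < 1) : volume (cell A S θ) ≤ ENNReal.ofReal |A.det| := by
  have hall : ∀ z ∈ cell A S θ, ∀ w : Fin n → ℤ, 2 * |inn A z w| ≤ θ * nsq A w := by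
    intro z hz w
    have h := hS (θ⁻¹ • z) (fun u hu => by
      rw [near_pair, inn_smul, abs_mul, abs_of_pos (inv_pos.2 h0)]
      have := hz u hu
      have h2 : 2 * (θ⁻¹ * |inn A z u|) = θ⁻¹ * (2 * |inn A z u|) := by ring
      rw [h2]
      calc θ⁻¹ * (2 * |inn A z u|) ≤ θ⁻¹ * (θ * nsq A u) :=
            mul_le_mul_of_nonneg_left this (inv_pos.2 h0).le
        _ = nsq A u := by rw [← mul_assoc, inv_mul_cancel₀ h0.ne', one_mul])
    have h3 := near_pair.1 ⟨h w, h (-w)⟩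
    rw [inn_smul, abs_mul, abs_of_pos (inv_pos.2 h0)] at h3
    calc 2 * |inn A z w| = θ * (2 * (θ⁻¹ * |inn A z w|)) := by field_simp
      _ ≤ θ * nsq A w := mul_le_mul_of_nonneg_left h3 h0.le
  refine packing_vol hA (cell_closed A S θ).measurableSet fun x hx y hy w hw he => ?_
  have p := nsq_pos hA hw
  have a1 := hall x hx w
  have a2 := hall y hy w
  have a3 : inn A x w - inn A y w = nsq A w := by
    rw [← inn_pt, ← he]
    unfold inn
    rw [← Finset.sum_sub_distrib]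
    exact Finset.sum_congr rfl fun i _ => by simp only [Pi.sub_apply]; ring
  have a4 := le_abs_self (inn A x w)
  have a5 := neg_abs_le (inn A y w)
  nlinarith

/-- volume and Gaussian measure -/
theorem gm_le_vol {n : ℕ} (K : Set (E n)) (hK : MeasurableSet K) :
    ENNReal.ofReal ((2 * Real.pi) ^ ((n : ℝ) / 2)) * gm n K ≤ volume K := by
  rw [Pool.Agent.PZ871.M_gdens.gdens, withDensity_apply _ hK]
  have h1 : ∫⁻ x in K, ENNReal.ofReal ((2 * Real.pi) ^ (-(n : ℝ) / 2) * Real.exp (-‖x‖ ^ 2 / 2)) ≤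
      ∫⁻ _x in K, ENNReal.ofReal ((2 * Real.pi) ^ (-(n : ℝ) / 2)) := by
    refine lintegral_mono fun x => ENNReal.ofReal_le_ofReal ?_
    have : Real.exp (-‖x‖ ^ 2 / 2) ≤ 1 := Real.exp_le_one_iff.2 (by nlinarith [sq_nonneg ‖x‖])
    exact mul_le_of_le_one_right (by positivity) this
  rw [setLIntegral_const] at h1
  calc ENNReal.ofReal ((2 * Real.pi) ^ ((n : ℝ) / 2)) *
        ∫⁻ x in K, ENNReal.ofReal ((2 * Real.pi) ^ (-(n : ℝ) / 2) * Real.exp (-‖x‖ ^ 2 / 2))
      ≤ ENNReal.ofReal ((2 * Real.pi) ^ ((n : ℝ) / 2)) *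
        (ENNReal.ofReal ((2 * Real.pi) ^ (-(n : ℝ) / 2)) * volume K) := mul_le_mul_right h1 _
    _ = volume K := by
      rw [← mul_assoc, ← ENNReal.ofReal_mul (by positivity), ← Real.rpow_add (by positivity)]
      have : (n : ℝ) / 2 + -(n : ℝ) / 2 = 0 := by ring
      rw [this, Real.rpow_zero, ENNReal.ofReal_one, one_mul]

theorem det_ge_aux {n : ℕ} (hn : 0 < n) {A : Matrix (Fin n) (Fin n) ℝ} (hA : A.det ≠ 0)
    {S : Finset (Fin n → ℤ)} {F : ℕ} (hF : S.card ≤ F)
    (hS : ∀ z : Fin n → ℝ, (∀ w ∈ S, Near A z w ∧ Near A z (-w)) → ∀ w : Fin n → ℤ, Near A z w)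
    {t : ℝ} (ht : 0 < t) (hq : 2 * Real.exp (-t ^ 2 / 2) ≤ 1) {θ : ℝ} (h0 : 0 < θ) (h1 : θ < 1) :
    (θ * √(minSq A) / (2 * t)) ^ n * ((2 * Real.pi) ^ ((n : ℝ) / 2) *
      (1 - 2 * Real.exp (-t ^ 2 / 2)) ^ F) ≤ |A.det| := by
  classical
  have hm := minSq_pos hn hA
  set m := minSq A with hmdef
  have hsm : 0 < √m := Real.sqrt_pos.2 hm
  set q : ℝ := 1 - 2 * Real.exp (-t ^ 2 / 2) with hqd
  have hq0 : 0 ≤ q := by rw [hqd]; linarith
  have hq1 : q ≤ 1 := by
    have := Real.exp_pos (-t ^ 2 / 2)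
    rw [hqd]; linarith
  -- the vectors
  set e := S.equivFin with he
  set a : Fin S.card → EuclideanSpace ℝ (Fin n) := fun k =>
    WithLp.toLp 2 ((nsq A (e.symm k).1)⁻¹ • pt A (e.symm k).1) with ha
  have hnorm : ∀ w : Fin n → ℤ, ‖(WithLp.toLp 2 (pt A w) : EuclideanSpace ℝ (Fin n))‖ ^ 2 =
      nsq A w := by
    intro w
    rw [EuclideanSpace.real_norm_sq_eq, nsq_eq]
  have haW : ∀ k, ‖a k‖ ≤ (√m)⁻¹ := by
    intro k
    set w := (e.symm k).1 with hw
    have hak : a k = (nsq A w)⁻¹ • (WithLp.toLp 2 (pt A w) : EuclideanSpace ℝ (Fin n)) := rfl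
    by_cases h : w = 0
    · have hz : (WithLp.toLp 2 (pt A w) : EuclideanSpace ℝ (Fin n)) = 0 := by
        rw [h, pt_zero]
        rfl
      rw [hak, hz, smul_zero, norm_zero]
      positivity
    · have p := nsq_pos hA h
      have p2 : m ≤ nsq A w := minSq_le A w h
      have hN : ‖(WithLp.toLp 2 (pt A w) : EuclideanSpace ℝ (Fin n))‖ = √(nsq A w) := by
        rw [← hnorm w, Real.sqrt_sq (norm_nonneg _)]
      rw [hak, norm_smul, hN, norm_inv, Real.norm_of_nonneg p.le]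
      have h3 : (nsq A w)⁻¹ * √(nsq A w) = (√(nsq A w))⁻¹ := by
        have h4 : nsq A w = √(nsq A w) * √(nsq A w) := (Real.mul_self_sqrt p.le).symm
        have h5 : 0 < √(nsq A w) := Real.sqrt_pos.2 p
        conv_lhs => rw [h4]
        rw [Real.sqrt_mul_self h5.le]
        field_simp
      rw [h3]
      exact inv_anti₀ hsm (Real.sqrt_le_sqrt p2)
  have hpoly := Q189.Spencer.poly_meas hn a (√m)⁻¹ t (by positivity) haW ht.le hq
  set K : Set (E n) := {x | ∀ k, |⟪x, a k⟫| ≤ t * (√m)⁻¹} with hK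
  have hKm : MeasurableSet K := by
    have : K = ⋂ k, {x | |⟪x, a k⟫| ≤ t * (√m)⁻¹} := by ext x; simp [hK]
    rw [this]
    exact MeasurableSet.iInter fun k => measurableSet_le (by fun_prop) measurable_const
  have hv := gm_le_vol K hKm
  -- the scaled set
  set ρ : ℝ := θ * √m / (2 * t) with hρ
  have hρ0 : 0 < ρ := by positivity
  have hsub : ρ • K ⊆ (WithLp.ofLp : E n → (Fin n → ℝ)) ⁻¹' (cell A S θ) := by
    rintro _ ⟨x, hx, rfl⟩
    intro w hw
    have hk := hx (e ⟨w, hw⟩)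
    have hak : a (e ⟨w, hw⟩) =
        (nsq A w)⁻¹ • (WithLp.toLp 2 (pt A w) : EuclideanSpace ℝ (Fin n)) := by
      simp only [ha, Equiv.symm_apply_apply]
      rfl
    rw [hak, inner_smul_right] at hk
    have hin : ⟪x, (WithLp.toLp 2 (pt A w) : EuclideanSpace ℝ (Fin n))⟫ =
        inn A (WithLp.ofLp x) w := by
      rw [inn, PiLp.inner_apply]
      exact Finset.sum_congr rfl fun i _ => by simp [mul_comm]
    rw [hin] at hk
    have e1 : inn A (WithLp.ofLp (ρ • x)) w = ρ * inn A (WithLp.ofLp x) w := by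
      rw [WithLp.ofLp_smul, inn_smul]
    change 2 * |inn A (WithLp.ofLp (ρ • x)) w| ≤ θ * nsq A w
    rw [e1, abs_mul, abs_of_pos hρ0]
    by_cases h : w = 0
    · rw [h, inn_zero]
      simp only [abs_zero, mul_zero]
      exact mul_nonneg h0.le (nsq_nonneg A 0)
    · have p := nsq_pos hA h
      rw [abs_mul, abs_of_pos (inv_pos.2 p)] at hk
      have h5 : |inn A (WithLp.ofLp x) w| ≤ t * (√m)⁻¹ * nsq A w := by
        calc |inn A (WithLp.ofLp x) w| = ((nsq A w)⁻¹ * |inn A (WithLp.ofLp x) w|) * nsq A w := by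
              field_simp
          _ ≤ _ := mul_le_mul_of_nonneg_right hk p.le
      calc 2 * (ρ * |inn A (WithLp.ofLp x) w|) ≤ 2 * (ρ * (t * (√m)⁻¹ * nsq A w)) := by
            gcongr
        _ = θ * nsq A w := by
            rw [hρ]
            field_simp
  have hvc : volume ((WithLp.ofLp : E n → (Fin n → ℝ)) ⁻¹' (cell A S θ)) =
      volume (cell A S θ) :=
    (PiLp.volume_preserving_ofLp (Fin n)).measure_preimage
      (cell_closed A S θ).measurableSet.nullMeasurableSet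
  have hfin : volume (ρ • K) ≤ ENNReal.ofReal |A.det| := by
    refine (measure_mono hsub).trans ?_
    rw [hvc]
    exact cell_vol hA hS h0 h1
  rw [Measure.addHaar_smul, finrank_euclideanSpace, Fintype.card_fin,
    abs_of_pos (pow_pos hρ0 n)] at hfin
  have hchain : ENNReal.ofReal (ρ ^ n * ((2 * Real.pi) ^ ((n : ℝ) / 2) * q ^ F)) ≤
      ENNReal.ofReal |A.det| := by
    refine le_trans ?_ hfin
    rw [ENNReal.ofReal_mul (by positivity)]
    refine mul_le_mul_right ?_ _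
    refine le_trans ?_ hv
    rw [ENNReal.ofReal_mul (by positivity)]
    refine mul_le_mul_right ?_ _
    refine le_trans (ENNReal.ofReal_le_ofReal ?_) hpoly
    exact pow_le_pow_of_le_one hq0 hq1 hF
  rwa [ENNReal.ofReal_le_ofReal_iff (abs_nonneg _)] at hchain

theorem det_ge {n : ℕ} (hn : 0 < n) {A : Matrix (Fin n) (Fin n) ℝ} (hA : A.det ≠ 0) {F : ℕ}
    (h : FewPairs A F) {t : ℝ} (ht : 0 < t) (hq : 2 * Real.exp (-t ^ 2 / 2) ≤ 1) :
    (√(minSq A) / (2 * t)) ^ n * ((2 * Real.pi) ^ ((n : ℝ) / 2) *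
      (1 - 2 * Real.exp (-t ^ 2 / 2)) ^ F) ≤ |A.det| := by
  obtain ⟨S, h1, h2⟩ := h
  have hlim : Filter.Tendsto (fun θ : ℝ => (θ * √(minSq A) / (2 * t)) ^ n *
      ((2 * Real.pi) ^ ((n : ℝ) / 2) * (1 - 2 * Real.exp (-t ^ 2 / 2)) ^ F))
      (nhdsWithin 1 (Set.Iio 1)) (nhds ((1 * √(minSq A) / (2 * t)) ^ n *
      ((2 * Real.pi) ^ ((n : ℝ) / 2) * (1 - 2 * Real.exp (-t ^ 2 / 2)) ^ F))) := by
    refine Filter.Tendsto.mono_left ?_ nhdsWithin_le_nhds
    have hc : Continuous (fun θ : ℝ => (θ * √(minSq A) / (2 * t)) ^ n *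
      ((2 * Real.pi) ^ ((n : ℝ) / 2) * (1 - 2 * Real.exp (-t ^ 2 / 2)) ^ F)) := by fun_prop
    exact hc.tendsto 1
  rw [one_mul] at hlim
  refine le_of_tendsto hlim ?_
  have hev : ∀ᶠ θ : ℝ in nhdsWithin 1 (Set.Iio 1), 0 < θ ∧ θ < 1 := by
    have h3 : ∀ᶠ θ : ℝ in nhdsWithin 1 (Set.Iio 1), 0 < θ :=
      Filter.Eventually.filter_mono nhdsWithin_le_nhds (lt_mem_nhds one_pos)
    exact h3.and self_mem_nhdsWithin
  filter_upwards [hev] with θ hθ
  exact det_ge_aux hn hA h1 h2 ht hq hθ.1 hθ.2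

/-- the upper bound -/
theorem upper {n F : ℕ} (hn : 0 < n) (hF : n ≤ F) {A : Matrix (Fin n) (Fin n) ℝ} (hA : A.det ≠ 0)
    (h : FewPairs A F) : gam A ≤ 8 / Real.pi * Real.log (8 * F / n) := by
  have hn' : (0 : ℝ) < n := by exact_mod_cast hn
  have hF' : (n : ℝ) ≤ F := by exact_mod_cast hF
  have hF0 : (0 : ℝ) < F := by linarith
  set R : ℝ := 8 * F / n with hR
  have hR8 : 8 ≤ R := by
    rw [hR, le_div_iff₀ hn']
    linarith
  have hlog : 0 < Real.log R := Real.log_pos (by linarith)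
  set t : ℝ := √(2 * Real.log R) with ht
  have ht0 : 0 < t := Real.sqrt_pos.2 (by linarith)
  have ht2 : t ^ 2 = 2 * Real.log R := Real.sq_sqrt (by linarith)
  have hexp : 2 * Real.exp (-t ^ 2 / 2) = n / (4 * F) := by
    have : -t ^ 2 / 2 = -Real.log R := by rw [ht2]; ring
    rw [this, Real.exp_neg, Real.exp_log (by linarith), hR]
    field_simp
    norm_num
  have hle : (n : ℝ) / (4 * F) ≤ 1 / 4 := by
    rw [div_le_div_iff₀ (by positivity) (by norm_num)]
    linarith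
  have hdet := det_ge hn hA h ht0 (by rw [hexp]; linarith)
  rw [hexp] at hdet
  have hm := minSq_pos hn hA
  set m := minSq A with hmd
  set q : ℝ := 1 - n / (4 * F) with hq
  have hq0 : 0 < q := by rw [hq]; linarith
  have hd : 0 < |A.det| := abs_pos.mpr hA
  have hbern : 1 / 2 ≤ q ^ (2 * F / n : ℝ) := by
    have h1 := one_add_mul_self_le_rpow_one_add (s := -(n / (4 * F) : ℝ)) (by linarith)
      (p := (2 * F / n : ℝ)) (by rw [le_div_iff₀ hn']; linarith)
    have h2 : 1 + (2 * F / n : ℝ) * -(n / (4 * F) : ℝ) = 1 / 2 := by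
      field_simp
      norm_num
    rw [h2] at h1
    rw [hq, sub_eq_add_neg]
    exact h1
  have hpow : (m / (4 * t ^ 2)) * (2 * Real.pi) * (1 / 2) ≤ |A.det| ^ ((2 : ℝ) / n) := by
    have h1 := Real.rpow_le_rpow (by positivity) hdet (z := (2 : ℝ) / n) (by positivity)
    refine le_trans ?_ h1
    rw [Real.mul_rpow (by positivity) (by positivity), Real.mul_rpow (by positivity) (by positivity)]
    have e1 : ((√m / (2 * t)) ^ n) ^ ((2 : ℝ) / n) = m / (4 * t ^ 2) := by
      rw [← Real.rpow_natCast, ← Real.rpow_mul (by positivity)]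
      have : (n : ℝ) * (2 / n) = ((2 : ℕ) : ℝ) := by
        push_cast
        field_simp
      rw [this, Real.rpow_natCast, div_pow, Real.sq_sqrt hm.le]
      ring
    have e2 : ((2 * Real.pi) ^ ((n : ℝ) / 2)) ^ ((2 : ℝ) / n) = 2 * Real.pi := by
      rw [← Real.rpow_mul (by positivity)]
      have : (n : ℝ) / 2 * (2 / n) = 1 := by field_simp
      rw [this, Real.rpow_one]
    have e3 : (q ^ F) ^ ((2 : ℝ) / n) = q ^ (2 * F / n : ℝ) := by
      rw [← Real.rpow_natCast, ← Real.rpow_mul hq0.le]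
      congr 1
      ring
    rw [e1, e2, e3, mul_assoc]
    gcongr
  unfold gam
  rw [div_le_iff₀ (by positivity)]
  have hpi := Real.pi_pos
  calc m = 8 / Real.pi * Real.log R * ((m / (4 * t ^ 2)) * (2 * Real.pi) * (1 / 2)) := by
        rw [ht2]
        field_simp
        norm_num
    _ ≤ 8 / Real.pi * Real.log R * |A.det| ^ ((2 : ℝ) / n) := by gcongr

end Pool.Agent.Q197.VR
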